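import Pool.Agent.W619.Y.Stm

set_option autoImplicit false

/-! # Sums over the orbits of a permutation -/

namespace Pool.Agent.W273.PG.ORB

open Finset

theorem main : Pool.Agent.W619.Y.S_ORB := by
  intro n N e m τ U α β hU hα hβ hb hr
  classical
  set A : Finset (Fin n) := univ.filter (fun i => i ∈ U ∧ ∀ r : ℕ, i ≤ (τ ^ r) i) with hA
  have hcard : ({i : Fin n | i ∈ U ∧ ∀ r : ℕ, i ≤ (τ ^ r) i}.ncard) = A.card := by
    rw [← Set.ncard_coe_finset]
    congr 1
    ext i
    simp [hA]
  rw [hcard]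
  have hαr : ∀ (r : ℕ) (i : Fin n), α ((τ ^ r) i) = α i := by
    intro r
    induction r with
    | zero => intro i; simp
    | succ r ih =>
      intro i
      rw [pow_succ', Equiv.Perm.mul_apply, hα, ih]
  have hUr : ∀ (r : ℕ) (i : Fin n), i ∈ U → (τ ^ r) i ∈ U := by
    intro r
    induction r with
    | zero => intro i hi; simpa using hi
    | succ r ih =>
      intro i hi
      rw [pow_succ', Equiv.Perm.mul_apply]
      exact (hU _).mp (ih i hi)
  have hl : ∀ i, 0 < Function.minimalPeriod τ i := fun i =>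
    Function.minimalPeriod_pos_of_mem_periodicPts (τ.injective.mem_periodicPts i)
  have hli : ∀ i, (τ ^ Function.minimalPeriod τ i) i = i := by
    intro i
    rw [← Equiv.Perm.iterate_eq_pow]
    exact Function.iterate_minimalPeriod
  have hinj : ∀ i, Set.InjOn (fun r : ℕ => (τ ^ r) i)
      (range (Function.minimalPeriod τ i) : Finset ℕ) := by
    intro i r hr' s hs h
    rw [mem_coe, mem_range] at hr' hs
    refine Function.iterate_injOn_Iio_minimalPeriod (f := τ) (x := i) (Set.mem_Iio.mpr hr')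
      (Set.mem_Iio.mpr hs) ?_
    simpa [Equiv.Perm.iterate_eq_pow] using h
  set O : Fin n → Finset (Fin n) := fun i =>
    (range (Function.minimalPeriod τ i)).image (fun r => (τ ^ r) i) with hO
  have hm : (0 : ℤ) ≤ m := Int.natCast_nonneg m
  have hN : (0 : ℤ) ≤ N := Int.natCast_nonneg N
  have hOs : ∀ i ∈ A, (m : ℤ) * e ≤ ∑ j ∈ O i, N * β j := by
    intro i hi
    rw [hA, mem_filter] at hi
    rw [hO, sum_image (hinj i)]
    calc (m : ℤ) * e ≤ m * ((Function.minimalPeriod τ i : ℕ) * α i) :=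
          mul_le_mul_of_nonneg_left (hr i hi.2.1 _ (hl i) (hli i)) hm
      _ = ∑ r ∈ range (Function.minimalPeriod τ i), m * α ((τ ^ r) i) := by
          rw [sum_congr rfl fun r _ => by rw [hαr r i], sum_const, card_range, nsmul_eq_mul]
          ring
      _ ≤ _ := sum_le_sum fun r _ => hb _ (hUr r i hi.2.1)
  have hdisj : (A : Set (Fin n)).PairwiseDisjoint O := by
    intro i hi i' hi' hne
    rw [Function.onFun, disjoint_left]
    intro j hj hj'
    rw [hO, mem_image] at hj hj'
    obtain ⟨r, hr1, hr2⟩ := hj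
    obtain ⟨s, hs1, hs2⟩ := hj'
    rw [mem_coe, hA, mem_filter] at hi hi'
    rw [mem_range] at hr1 hs1
    -- both are least in the orbit
    have key : ∀ (a b : Fin n) (r s : ℕ), s < Function.minimalPeriod τ b →
        (τ ^ r) a = (τ ^ s) b → ∃ t : ℕ, (τ ^ t) a = b := by
      intro a b r s hs h
      refine ⟨(Function.minimalPeriod τ b - s) + r, ?_⟩
      rw [pow_add, Equiv.Perm.mul_apply, h, ← Equiv.Perm.mul_apply, ← pow_add,
        Nat.sub_add_cancel hs.le]
      exact hli b
    obtain ⟨t, ht⟩ := key i i' r s hs1 (hr2.trans hs2.symm)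
    obtain ⟨t', ht'⟩ := key i' i s r hr1 (hs2.trans hr2.symm)
    refine hne (le_antisymm ?_ ?_)
    · rw [← ht]
      exact hi.2.2 t
    · rw [← ht']
      exact hi'.2.2 t'
  calc (m : ℤ) * e * (A.card : ℤ) = ∑ i ∈ A, (m : ℤ) * e := by
        rw [sum_const, nsmul_eq_mul]
        ring
    _ ≤ ∑ i ∈ A, ∑ j ∈ O i, N * β j := sum_le_sum hOs
    _ = ∑ j ∈ A.biUnion O, N * β j := (sum_biUnion hdisj).symm
    _ ≤ ∑ j, N * β j := sum_le_sum_of_subset_of_nonneg (subset_univ _)
        fun j _ _ => mul_nonneg hN (hβ j)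
    _ = N * ∑ i, β i := by rw [mul_sum]

end Pool.Agent.W273.PG.ORB
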